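import Pool.Agent.KS6_83.HN.Flow

/-!
# Positive lower density, and a quantitative version
-/

set_option autoImplicit false

namespace Pool.Agent.KS6_83.HN

open Nbb67e70a Finset Filter

/-- The primes up to `y`. -/
abbrev PL (y : ℕ) : Type := {p : ℕ // p ∈ (range (y + 1)).filter Nat.Prime}

/-- The logarithms of the primes up to `y`. -/
noncomputable def lw (y : ℕ) : PL y → ℝ := fun p => Real.log (p.1 : ℕ)

lemma card_PL (y : ℕ) : Fintype.card (PL y) = Nat.primeCounting y := by
  rw [Fintype.card_coe, Nat.primeCounting, Nat.primeCounting', Nat.count_eq_card_filter_range]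

/-- All `t / log p`, `p ≤ y`, are at distance less than `1/K` from the integers. -/
def Near (y K : ℕ) (t : ℝ) : Prop :=
  ∀ p : ℕ, p.Prime → p ≤ y → ∃ z : ℤ, |t / Real.log p - z| < 1 / K

lemma near_of_code {y K : ℕ} (hK : 0 < K) {s t : ℝ}
    (h : code K hK (lw y) s = code K hK (lw y) t) : Near y K (t - s) := by
  intro p hp hpy
  exact code_near hK h ⟨p, by simp [hp]; omega⟩

lemma pigeon (y K : ℕ) (hK : 0 < K) (T : ℝ) :
    ∃ m : ℕ, 1 ≤ m ∧ m ≤ K ^ Nat.primeCounting y ∧ Near y K (m * T) := by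
  have hc : Fintype.card (PL y → Fin K) < Fintype.card (Fin (K ^ Nat.primeCounting y + 1)) := by
    rw [Fintype.card_fun, Fintype.card_fin, Fintype.card_fin, card_PL]
    omega
  obtain ⟨i, j, hij, h⟩ := Fintype.exists_ne_map_eq_of_card_lt
    (fun m : Fin (K ^ Nat.primeCounting y + 1) => code K hK (lw y) ((m : ℕ) * T)) hc
  rcases lt_or_gt_of_ne hij with hlt | hlt
  · refine ⟨(j : ℕ) - i, ?_, ?_, ?_⟩
    · have : (i : ℕ) < j := hlt
      omega
    · have := j.2
      omega
    · have h1 := near_of_code hK h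
      have : (((j : ℕ) - (i : ℕ) : ℕ) : ℝ) = (j : ℕ) - (i : ℕ) := by
        rw [Nat.cast_sub]
        exact le_of_lt hlt
      rw [this, sub_mul]
      exact h1
  · refine ⟨(i : ℕ) - j, ?_, ?_, ?_⟩
    · have : (j : ℕ) < i := hlt
      omega
    · have := i.2
      omega
    · have h1 := near_of_code hK h.symm
      have : (((i : ℕ) - (j : ℕ) : ℕ) : ℝ) = (i : ℕ) - (j : ℕ) := by
        rw [Nat.cast_sub]
        exact le_of_lt hlt
      rw [this, sub_mul]
      exact h1

open Classical in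
lemma syndetic (y K : ℕ) (hK : 0 < K) :
    ∃ M : ℝ, 0 ≤ M ∧ ∀ t : ℝ, 0 ≤ t → ∃ t' : ℝ, t - M ≤ t' ∧ t' ≤ t ∧ Near y K t' := by
  have hs : ∀ c : PL y → Fin K, ∃ s : ℝ, 0 ≤ s ∧
      ((∃ t : ℝ, 0 ≤ t ∧ code K hK (lw y) t = c) → code K hK (lw y) s = c) := by
    intro c
    by_cases h : ∃ t : ℝ, 0 ≤ t ∧ code K hK (lw y) t = c
    · obtain ⟨t, h1, h2⟩ := h
      exact ⟨t, h1, fun _ => h2⟩
    · exact ⟨0, le_refl _, fun h' => absurd h' h⟩
  choose s hs0 hs1 using hs
  refine ⟨∑ c, s c, Finset.sum_nonneg fun c _ => hs0 c, ?_⟩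
  intro t ht
  have h1 := hs1 (code K hK (lw y) t) ⟨t, ht, rfl⟩
  have h2 : s (code K hK (lw y) t) ≤ ∑ c, s c :=
    Finset.single_le_sum (fun c _ => hs0 c) (mem_univ _)
  exact ⟨t - s (code K hK (lw y) t), by linarith,
    by linarith [hs0 (code K hK (lw y) t)], near_of_code hK h1⟩

/-- The constant `K`. -/
noncomputable def Ky (y : ℕ) : ℕ := ⌈10 * Real.log y⌉₊ + 1

lemma Ky_pos (y : ℕ) : 0 < Ky y := Nat.succ_pos _

lemma le_Ky (y : ℕ) : 10 * Real.log y ≤ Ky y := by
  unfold Ky
  push_cast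
  linarith [Nat.le_ceil (10 * Real.log y)]

open Classical in
theorem lower_density (y : ℕ) : ∃ c : ℝ, 0 < c ∧ ∀ᶠ X : ℕ in atTop,
    c * X ≤ (((Icc 1 X).filter fun n => Good y n).card : ℝ) := by
  obtain ⟨M, hM0, hM⟩ := syndetic y (Ky y) (Ky_pos y)
  refine ⟨Real.exp (-1 - M) / 2, by positivity, ?_⟩
  have h1 : Tendsto (fun X : ℕ => Real.log (X : ℝ)) atTop atTop :=
    Real.tendsto_log_atTop.comp tendsto_natCast_atTop_atTop
  filter_upwards [h1.eventually_ge_atTop (M + 3), eventually_ge_atTop 1] with X hX hX1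
  have hX0 : (0 : ℝ) < X := by exact_mod_cast hX1
  obtain ⟨t, ht1, ht2, hn⟩ := hM (Real.log X - 1) (by linarith)
  have ht3 : 2 ≤ t := by linarith
  have hE0 : 6 ≤ Real.exp t := by
    have h2 : Real.exp 2 = Real.exp 1 * Real.exp 1 := by
      rw [← Real.exp_add]; norm_num
    have h3 := Real.exp_one_gt_d9
    have h4 := Real.exp_le_exp.2 ht3
    nlinarith
  have hE1 : Real.exp (-1 - M) * X ≤ Real.exp t := by
    calc Real.exp (-1 - M) * X = Real.exp (-1 - M) * Real.exp (Real.log X) := by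
          rw [Real.exp_log hX0]
      _ = Real.exp (-1 - M + Real.log X) := by rw [Real.exp_add]
      _ ≤ Real.exp t := Real.exp_le_exp.2 (by linarith)
  have hE2 : 2 * Real.exp t ≤ X := by
    have h2 := Real.exp_le_exp.2 ht2
    rw [Real.exp_sub, Real.exp_log hX0, le_div_iff₀ (Real.exp_pos 1)] at h2
    have h3 := Real.exp_one_gt_d9
    nlinarith [Real.exp_pos t]
  have hsub : Finset.Ico ⌈10 / 9 * Real.exp t⌉₊ ⌈9 / 5 * Real.exp t⌉₊ ⊆
      (Icc 1 X).filter fun n => Good y n := by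
    intro n hn'
    rw [mem_Ico, Nat.ceil_le, Nat.lt_ceil] at hn'
    rw [mem_filter, mem_Icc]
    have g1 : (1 : ℝ) ≤ n := by nlinarith
    have g2 : (n : ℝ) ≤ X := by nlinarith
    refine ⟨⟨by exact_mod_cast g1, by exact_mod_cast g2⟩, ?_⟩
    exact good_of_near (Ky_pos y) (le_Ky y) (by linarith) hn
      ((window t).1.trans hn'.1) (lt_of_lt_of_le hn'.2 (window t).2)
  have hcard := Finset.card_le_card hsub
  rw [Nat.card_Ico] at hcard
  have h5 : ((⌈9 / 5 * Real.exp t⌉₊ : ℕ) : ℝ) - ⌈10 / 9 * Real.exp t⌉₊ ≤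
      (((Icc 1 X).filter fun n => Good y n).card : ℝ) := by
    have : ⌈9 / 5 * Real.exp t⌉₊ ≤ ((Icc 1 X).filter fun n => Good y n).card +
      ⌈10 / 9 * Real.exp t⌉₊ := by omega
    have := (Nat.cast_le (α := ℝ)).2 this
    push_cast at this
    linarith
  have h6 := Nat.le_ceil (9 / 5 * Real.exp t)
  have h7 := Nat.ceil_lt_add_one (show (0 : ℝ) ≤ 10 / 9 * Real.exp t by positivity)
  nlinarith

lemma asym (C : ℝ) (hC : 0 < C) : ∀ᶠ y : ℕ in atTop,
    C * (Nat.primeCounting y * Real.log (Ky y) + Real.log (y + 2)) ≤ y := by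
  have h1 : Tendsto (fun X : ℕ => Real.log (X : ℝ)) atTop atTop :=
    Real.tendsto_log_atTop.comp tendsto_natCast_atTop_atTop
  have h2 : Tendsto (fun X : ℕ => 11 * Real.log (X : ℝ)) atTop atTop :=
    h1.const_mul_atTop (by norm_num)
  have h3 := h2.eventually (Real.isLittleO_log_id_atTop.bound
    (show (0 : ℝ) < 1 / (44 * C) by positivity))
  have h4 : Tendsto (fun X : ℕ => (X : ℝ) + 2) atTop atTop :=
    tendsto_atTop_add_const_right _ _ tendsto_natCast_atTop_atTop
  have h5 := h4.eventually (Real.isLittleO_log_id_atTop.bound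
    (show (0 : ℝ) < 1 / (4 * C) by positivity))
  have h6 := tendsto_natCast_atTop_atTop.eventually
    (Chebyshev.eventually_primeCounting_le (show (0 : ℝ) < 1 / 2 by norm_num))
  filter_upwards [h3, h5, h6, h1.eventually_ge_atTop 2, eventually_ge_atTop 2]
    with y g3 g5 g6 g7 g8
  have hy2 : (2 : ℝ) ≤ y := by exact_mod_cast g8
  simp only [id, Real.norm_eq_abs] at g3 g5
  rw [Nat.floor_natCast] at g6
  have e1 : Real.log (Ky y) ≤ Real.log (11 * Real.log y) := by
    apply Real.log_le_log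
    · exact_mod_cast Ky_pos y
    · unfold Ky
      push_cast
      have := Nat.ceil_lt_add_one (show (0 : ℝ) ≤ 10 * Real.log y by positivity)
      linarith
  have e2 : Real.log (11 * Real.log y) ≤ 1 / (44 * C) * (11 * Real.log y) := by
    have := le_trans (le_abs_self _) g3
    rwa [abs_of_pos (by linarith)] at this
  have e3 : Real.log (y + 2) ≤ 1 / (4 * C) * (y + 2) := by
    have := le_trans (le_abs_self _) g5
    rwa [abs_of_pos (by linarith)] at this
  have e4 : (Nat.primeCounting y : ℝ) ≤ 2 * y / Real.log y := by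
    refine g6.trans ?_
    apply div_le_div_of_nonneg_right _ (by linarith)
    have : Real.log 4 = 2 * Real.log 2 := by
      rw [show (4 : ℝ) = 2 ^ 2 by norm_num, Real.log_pow]
      norm_num
    have := Real.log_two_lt_d9
    nlinarith
  have e5 : (Nat.primeCounting y : ℝ) * Real.log (Ky y) ≤ y / (2 * C) := by
    have k0 : 0 ≤ Real.log (Ky y) := by
      apply Real.log_nonneg
      have := Ky_pos y
      exact_mod_cast this
    calc (Nat.primeCounting y : ℝ) * Real.log (Ky y)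
        ≤ (2 * y / Real.log y) * (1 / (44 * C) * (11 * Real.log y)) := by
          apply mul_le_mul e4 (e1.trans e2) k0
          positivity
      _ = y / (2 * C) := by
          have : Real.log y ≠ 0 := by linarith
          field_simp
          ring
  have e6 : C * (y / (2 * C)) = y / 2 := by field_simp
  have e7 : C * (1 / (4 * C) * ((y : ℝ) + 2)) = (y + 2) / 4 := by field_simp
  have e8 := mul_le_mul_of_nonneg_left e5 hC.le
  have e9 := mul_le_mul_of_nonneg_left e3 hC.le
  rw [mul_add]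
  linarith

theorem frequently_large (C : ℝ) (hC : 0 < C) : ∃ᶠ n : ℕ in atTop,
    ∀ p : ℕ, p.Prime → p ∣ Nat.gcd (a n) (L n) → C * Real.log (Real.log n) < p := by
  rw [frequently_atTop]
  intro N
  obtain ⟨y, hy1, hy2, hy3⟩ :=
    ((asym C hC).and ((eventually_ge_atTop N).and (eventually_ge_atTop 2))).exists
  obtain ⟨m, hm1, hm2, hm3⟩ := pigeon y (Ky y) (Ky_pos y) (y + 1)
  have hm1' : (1 : ℝ) ≤ m := by exact_mod_cast hm1
  have hy3' : (2 : ℝ) ≤ y := by exact_mod_cast hy3
  set t : ℝ := m * (y + 1) with ht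
  have ht1 : (y : ℝ) + 1 ≤ t := by nlinarith
  have hE0 : t + 1 ≤ Real.exp t := Real.add_one_le_exp t
  have hE1 : 4 ≤ Real.exp t := by linarith
  have hc := Nat.ceil_lt_add_one (show (0 : ℝ) ≤ 10 / 9 * Real.exp t by positivity)
  have hc2 := Nat.le_ceil (10 / 9 * Real.exp t)
  refine ⟨⌈10 / 9 * Real.exp t⌉₊, ?_, ?_⟩
  · have : (y : ℝ) ≤ ⌈10 / 9 * Real.exp t⌉₊ := by linarith
    have : y ≤ ⌈10 / 9 * Real.exp t⌉₊ := by exact_mod_cast this
    omega
  · have hg : Good y ⌈10 / 9 * Real.exp t⌉₊ := by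
      apply good_of_near (Ky_pos y) (le_Ky y) (by linarith) hm3 ((window t).1.trans hc2)
      refine lt_of_lt_of_le ?_ (window t).2
      linarith
    intro p hp hpd
    have hpy : y < p := by
      by_contra hcon
      push Not at hcon
      exact hg p hp hcon hpd
    refine lt_of_le_of_lt ?_ (show (y : ℝ) < p by exact_mod_cast hpy)
    refine le_trans ?_ hy1
    apply mul_le_mul_of_nonneg_left _ hC.le
    have hn0 : (0 : ℝ) < ⌈10 / 9 * Real.exp t⌉₊ := by linarith
    have hl1 : Real.log ⌈10 / 9 * Real.exp t⌉₊ ≤ t + 1 := by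
      rw [Real.log_le_iff_le_exp hn0, Real.exp_add]
      have h3 := Real.exp_one_gt_d9
      nlinarith
    have hl0 : 0 < Real.log ⌈10 / 9 * Real.exp t⌉₊ := by
      apply Real.log_pos
      linarith
    have hP : (1 : ℝ) ≤ (Ky y : ℝ) ^ Nat.primeCounting y := by
      apply one_le_pow₀
      exact_mod_cast Ky_pos y
    have hl2 : Real.log ⌈10 / 9 * Real.exp t⌉₊ ≤ (Ky y : ℝ) ^ Nat.primeCounting y * (y + 2) := by
      have hm2' : (m : ℝ) ≤ (Ky y : ℝ) ^ Nat.primeCounting y := by exact_mod_cast hm2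
      refine hl1.trans ?_
      rw [ht]
      nlinarith
    have hK1 : (0 : ℝ) < Ky y := by exact_mod_cast Ky_pos y
    calc Real.log (Real.log ⌈10 / 9 * Real.exp t⌉₊)
        ≤ Real.log ((Ky y : ℝ) ^ Nat.primeCounting y * (y + 2)) := Real.log_le_log hl0 hl2
      _ = Nat.primeCounting y * Real.log (Ky y) + Real.log (y + 2) := by
          rw [Real.log_mul (by positivity) (by positivity), Real.log_pow]

end Pool.Agent.KS6_83.HN
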