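import Mathlib
import Pool.Prelude.Def_F_7546141c

/-!
# The leading digit `1` in base `p`

If `p^z ≤ n < 2 p^z` then `p` does not divide `a_n = ∑_{k ≤ n} L_n / k`.
-/

set_option autoImplicit false

namespace Pool.Agent.KS6_83.HN

open Nbb67e70a Finset

lemma L_dvd {n k : ℕ} (h : k ∈ Icc 1 n) : k ∣ L n := Finset.dvd_lcm h

lemma L_not_dvd {p z n : ℕ} (hp : p.Prime) (hn : n < p ^ (z + 1)) : ¬ p ^ (z + 1) ∣ L n := by
  intro h
  have h1 : L n ∣ p ^ z * ∏ k ∈ Icc 1 n, ordCompl[p] k := by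
    unfold L
    apply Finset.lcm_dvd
    intro k hk
    have hk' := hk
    rw [mem_Icc] at hk
    have e := Nat.ordProj_mul_ordCompl_eq_self k p
    have e1 : p ^ k.factorization p ∣ p ^ z := by
      apply pow_dvd_pow
      by_contra hc
      push Not at hc
      have h3 : p ^ (z + 1) ∣ k := (pow_dvd_pow p hc).trans (Nat.ordProj_dvd k p)
      have := Nat.le_of_dvd (by omega) h3
      omega
    have e2 : ordCompl[p] k ∣ ∏ k ∈ Icc 1 n, ordCompl[p] k :=
      Finset.dvd_prod_of_mem (fun k => ordCompl[p] k) hk'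
    have e3 := mul_dvd_mul e1 e2
    rw [e] at e3
    exact e3
  have h2 := h.trans h1
  rw [pow_succ] at h2
  have h3 := Nat.dvd_of_mul_dvd_mul_left (pow_pos hp.pos z) h2
  rw [Prime.dvd_finsetProd_iff hp.prime] at h3
  obtain ⟨k, hk, hk2⟩ := h3
  rw [mem_Icc] at hk
  exact Nat.not_dvd_ordCompl hp (by omega) hk2

lemma not_dvd_a {p z n : ℕ} (hp : p.Prime) (h1 : p ^ z ≤ n) (h2 : n < 2 * p ^ z) :
    ¬ p ∣ a n := by
  have hz : p ^ z ∈ Icc 1 n := mem_Icc.2 ⟨Nat.one_le_pow _ _ hp.pos, h1⟩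
  have hL : p ^ z ∣ L n := L_dvd hz
  have hpz : 0 < p ^ z := pow_pos hp.pos z
  have hnd : ¬ p ^ (z + 1) ∣ L n := by
    apply L_not_dvd hp
    rw [pow_succ, mul_comm]
    exact lt_of_lt_of_le h2 (Nat.mul_le_mul_right _ hp.two_le)
  intro h
  unfold a at h
  rw [← Finset.add_sum_erase _ _ hz] at h
  have h3 : p ∣ ∑ k ∈ (Icc 1 n).erase (p ^ z), L n / k := by
    apply Finset.dvd_sum
    intro k hk
    rw [mem_erase, mem_Icc] at hk
    obtain ⟨hne, hk1, hk2⟩ := hk
    have hk0 : k ≠ 0 := by omega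
    have hv : k.factorization p < z := by
      by_contra hc
      push Not at hc
      have hd : p ^ z ∣ k := (pow_dvd_pow p hc).trans (Nat.ordProj_dvd k p)
      obtain ⟨j, rfl⟩ := hd
      have hj0 : j ≠ 0 := by
        rintro rfl
        simp at hk0
      have hj2 : j < 2 := by
        by_contra hj
        push Not at hj
        have := Nat.mul_le_mul_left (p ^ z) hj
        omega
      have : j = 1 := by omega
      subst this
      simp at hne
    have hm : Nat.Coprime (p ^ z) (ordCompl[p] k) := (Nat.coprime_ordCompl hp hk0).pow_left z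
    have hm2 : ordCompl[p] k ∣ L n := (Nat.ordCompl_dvd k p).trans (L_dvd (mem_Icc.2 ⟨hk1, hk2⟩))
    obtain ⟨q, hq⟩ := hm.mul_dvd_of_dvd_of_dvd hL hm2
    have e := Nat.ordProj_mul_ordCompl_eq_self k p
    have e2 : p ^ z = p ^ k.factorization p * p ^ (z - k.factorization p) := by
      rw [← pow_add]
      congr 1
      omega
    have e3 : L n = k * (p ^ (z - k.factorization p) * q) := by
      rw [hq]
      calc p ^ z * ordCompl[p] k * q
          = (p ^ k.factorization p * ordCompl[p] k) * (p ^ (z - k.factorization p) * q) := by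
            rw [e2]; ring
        _ = _ := by rw [e]
    rw [e3, Nat.mul_div_cancel_left _ (by omega)]
    exact Dvd.dvd.mul_right (dvd_pow_self p (by omega)) q
  have h4 : p ∣ L n / p ^ z := (Nat.dvd_add_left h3).1 h
  apply hnd
  rw [pow_succ]
  obtain ⟨c, hc⟩ := h4
  refine ⟨c, ?_⟩
  rw [← Nat.mul_div_cancel' hL, hc]
  ring

end Pool.Agent.KS6_83.HN
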