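import Pool.Agent.KS6_83.HN.Digit

/-!
# Simultaneous near-powers

Real numbers `t` for which `t / log p` is close to an integer for all primes `p ≤ y`.
-/

set_option autoImplicit false

namespace Pool.Agent.KS6_83.HN

open Nbb67e70a Finset

/-- The box of the torus that contains `t / w`. -/
noncomputable def code {ι : Type} (K : ℕ) (hK : 0 < K) (w : ι → ℝ) (t : ℝ) : ι → Fin K :=
  fun i => ⟨⌊(K : ℝ) * Int.fract (t / w i)⌋₊, by
    have h1 : (0 : ℝ) < K := by exact_mod_cast hK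
    have h2 := Int.fract_nonneg (t / w i)
    rw [Nat.floor_lt (by positivity)]
    have := Int.fract_lt_one (t / w i)
    nlinarith⟩

lemma code_near {ι : Type} {K : ℕ} (hK : 0 < K) {w : ι → ℝ} {s t : ℝ}
    (h : code K hK w s = code K hK w t) (i : ι) :
    ∃ z : ℤ, |(t - s) / w i - z| < 1 / K := by
  have h1 : (0 : ℝ) < K := by exact_mod_cast hK
  refine ⟨⌊t / w i⌋ - ⌊s / w i⌋, ?_⟩
  have h2 : ⌊(K : ℝ) * Int.fract (s / w i)⌋₊ = ⌊(K : ℝ) * Int.fract (t / w i)⌋₊ := by
    have := congrFun h i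
    simpa [code] using this
  have e : (t - s) / w i - ((⌊t / w i⌋ - ⌊s / w i⌋ : ℤ) : ℝ)
      = Int.fract (t / w i) - Int.fract (s / w i) := by
    rw [← Int.self_sub_floor, ← Int.self_sub_floor]
    push_cast
    ring
  rw [e]
  have a1 := Nat.floor_le (mul_nonneg h1.le (Int.fract_nonneg (s / w i)))
  have a2 := Nat.lt_floor_add_one ((K : ℝ) * Int.fract (s / w i))
  have a3 := Nat.floor_le (mul_nonneg h1.le (Int.fract_nonneg (t / w i)))
  have a4 := Nat.lt_floor_add_one ((K : ℝ) * Int.fract (t / w i))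
  rw [h2] at a1 a2
  rw [lt_div_iff₀ h1]
  have h3 : |(Int.fract (t / w i) - Int.fract (s / w i)) * K| < 1 :=
    abs_lt.2 ⟨by nlinarith, by nlinarith⟩
  rwa [abs_mul, abs_of_pos h1] at h3

/-- `n` is good: no prime `p ≤ y` divides `gcd(a_n, L_n)`. -/
def Good (y n : ℕ) : Prop := ∀ p : ℕ, p.Prime → p ≤ y → ¬ p ∣ Nat.gcd (a n) (L n)

lemma good_of_near {y K n : ℕ} {t : ℝ} (hK : 0 < K) (hy : 10 * Real.log y ≤ K)
    (ht : 1 ≤ t)
    (h : ∀ p : ℕ, p.Prime → p ≤ y → ∃ z : ℤ, |t / Real.log p - z| < 1 / K)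
    (h1 : Real.exp (t + 1 / 10) ≤ n) (h2 : (n : ℝ) < 2 * Real.exp (t - 1 / 10)) : Good y n := by
  intro p hp hpy hd
  have hp1 : (1 : ℝ) < p := by exact_mod_cast hp.one_lt
  have hl : 0 < Real.log p := Real.log_pos hp1
  have hK0 : (0 : ℝ) < K := by exact_mod_cast hK
  have hly : Real.log p ≤ Real.log y :=
    Real.log_le_log (by linarith) (by exact_mod_cast hpy)
  obtain ⟨z, hz⟩ := h p hp hpy
  have hz2 : |t - z * Real.log p| < 1 / 10 := by
    have e : t - z * Real.log p = (t / Real.log p - z) * Real.log p := by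
      field_simp
    rw [e, abs_mul, abs_of_pos hl]
    calc |t / Real.log p - z| * Real.log p < 1 / K * Real.log p :=
          mul_lt_mul_of_pos_right hz hl
      _ ≤ 1 / K * (K / 10) := by
          apply mul_le_mul_of_nonneg_left _ (by positivity)
          linarith
      _ = 1 / 10 := by field_simp
  rw [abs_lt] at hz2
  have hz0 : 0 ≤ z := by
    by_contra hc
    push Not at hc
    have : (z : ℝ) < 0 := by exact_mod_cast hc
    nlinarith
  obtain ⟨m, rfl⟩ := Int.eq_ofNat_of_zero_le hz0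
  have e : ((p ^ m : ℕ) : ℝ) = Real.exp (m * Real.log p) := by
    rw [Real.exp_nat_mul, Real.exp_log (by linarith)]
    push_cast
    rfl
  simp only [Int.cast_natCast] at hz2
  have c1 : ((p ^ m : ℕ) : ℝ) ≤ n := by
    rw [e]
    refine le_trans (Real.exp_le_exp.2 ?_) h1
    linarith
  have c2 : (n : ℝ) < ((2 * p ^ m : ℕ) : ℝ) := by
    rw [Nat.cast_mul, e]
    refine lt_of_lt_of_le h2 ?_
    have := Real.exp_le_exp.2 (show t - 1 / 10 ≤ m * Real.log p by linarith)
    push_cast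
    linarith
  exact not_dvd_a hp (by exact_mod_cast c1) (by exact_mod_cast c2)
    (hd.trans (Nat.gcd_dvd_left _ _))

lemma exp_tenth : Real.exp (1 / 10) ≤ 10 / 9 := by
  have h := Real.add_one_le_exp (-(1 / 10 : ℝ))
  rw [Real.exp_neg] at h
  have h0 := Real.exp_pos (1 / 10)
  rw [← one_div, le_div_iff₀ h0] at h
  linarith

lemma window (t : ℝ) : Real.exp (t + 1 / 10) ≤ 10 / 9 * Real.exp t ∧
    9 / 5 * Real.exp t ≤ 2 * Real.exp (t - 1 / 10) := by
  have h0 := Real.exp_pos t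
  constructor
  · rw [Real.exp_add]
    nlinarith [exp_tenth]
  · rw [sub_eq_add_neg, Real.exp_add]
    have h := Real.add_one_le_exp (-(1 / 10 : ℝ))
    nlinarith

end Pool.Agent.KS6_83.HN
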