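import Pool.Agent.KS6_83.HN.Count

/-!
# Large prime factors of `gcd(a_n, L_n)`

If `p ≤ n < p²` divides `a_n`, then `p` divides `a_{⌊n/p⌋}`; hence `p ≤ 13 n / log n`.
-/

set_option autoImplicit false

namespace Pool.Agent.KS6_83.HN

open Nbb67e70a Finset Filter

lemma L_pos (n : ℕ) : 0 < L n := by
  apply Nat.pos_of_ne_zero
  unfold L
  rw [Ne, Finset.lcm_eq_zero_iff]
  rintro ⟨k, hk, h0⟩
  simp at hk
  omega

lemma dvd_a_div {p n : ℕ} (hp : p.Prime) (hpn : p ≤ n) (hn : n < p ^ 2) (h : p ∣ a n) :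
    p ∣ a (n / p) := by
  have hp0 := hp.pos
  have hpL : p ∣ L n := L_dvd (mem_Icc.2 ⟨hp.one_le, hpn⟩)
  have hnd : ¬ p ^ (1 + 1) ∣ L n := L_not_dvd hp hn
  obtain ⟨M, hM⟩ := hpL
  have hpM : ¬ p ∣ M := by
    rintro ⟨q, rfl⟩
    apply hnd
    rw [hM]
    exact ⟨q, by ring⟩
  have hLM : L (n / p) ∣ M := by
    rw [L]
    apply Finset.lcm_dvd
    intro j hj
    rw [mem_Icc] at hj
    have h1 : p * j ∣ L n := by
      apply L_dvd
      rw [mem_Icc]
      refine ⟨Nat.mul_pos hp0 (by omega), ?_⟩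
      rw [mul_comm]
      exact (Nat.mul_le_mul_right p hj.2).trans (Nat.div_mul_le_self n p)
    rw [hM] at h1
    exact Nat.dvd_of_mul_dvd_mul_left hp0 h1
  obtain ⟨Q, hQ⟩ := hLM
  have hpQ : ¬ p ∣ Q := fun hc => hpM (hQ ▸ Dvd.dvd.mul_left hc _)
  -- split the sum
  have e1 : a n = ∑ k ∈ (Icc 1 n).filter (fun k => p ∣ k), L n / k +
      ∑ k ∈ (Icc 1 n).filter (fun k => ¬ p ∣ k), L n / k := by
    rw [a, Finset.sum_filter_add_sum_filter_not]
  have e2 : p ∣ ∑ k ∈ (Icc 1 n).filter (fun k => ¬ p ∣ k), L n / k := by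
    apply Finset.dvd_sum
    intro k hk
    rw [mem_filter] at hk
    have hk1 := (mem_Icc.1 hk.1).1
    have hc : Nat.Coprime k p := ((Nat.Prime.coprime_iff_not_dvd hp).2 hk.2).symm
    obtain ⟨q, hq⟩ := hc.mul_dvd_of_dvd_of_dvd (L_dvd hk.1) ⟨M, hM⟩
    rw [hq, mul_assoc, Nat.mul_div_cancel_left _ (by omega)]
    exact Dvd.intro q rfl
  have e3 : ∑ k ∈ (Icc 1 n).filter (fun k => p ∣ k), L n / k = Q * a (n / p) := by
    have e4 : (Icc 1 n).filter (fun k => p ∣ k) = (Icc 1 (n / p)).image (fun j => p * j) := by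
      ext k
      simp only [mem_filter, mem_Icc, mem_image]
      constructor
      · rintro ⟨⟨h1, h2⟩, j, rfl⟩
        refine ⟨j, ⟨?_, ?_⟩, rfl⟩
        · rcases Nat.eq_zero_or_pos j with h0 | h0
          · subst h0; simp at h1
          · exact h0
        · rw [Nat.le_div_iff_mul_le hp0, mul_comm]; exact h2
      · rintro ⟨j, ⟨h1, h2⟩, rfl⟩
        refine ⟨⟨Nat.mul_pos hp0 (by omega), ?_⟩, Dvd.intro j rfl⟩
        rw [Nat.le_div_iff_mul_le hp0, mul_comm] at h2; exact h2
    rw [e4, Finset.sum_image (fun i _ j _ h => Nat.eq_of_mul_eq_mul_left hp0 h), a,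
      Finset.mul_sum]
    apply Finset.sum_congr rfl
    intro j hj
    obtain ⟨c, hc⟩ := L_dvd hj
    have hj1 := (mem_Icc.1 hj).1
    have hj0 : 0 < j := hj1
    have a1 : L n = (p * j) * (Q * c) := by
      rw [hM, hQ, hc]; ring
    have a2 : L (n / p) / j = c := by
      rw [hc, Nat.mul_div_cancel_left _ hj0]
    rw [a2, a1, Nat.mul_div_cancel_left _ (Nat.mul_pos hp0 hj0)]
  rw [e1, e3] at h
  have h4 : p ∣ Q * a (n / p) := (Nat.dvd_add_left e2).1 h
  exact (hp.dvd_mul.1 h4).resolve_left hpQ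

lemma a_le (k : ℕ) : a k ≤ k * L k := by
  unfold a
  calc ∑ j ∈ Icc 1 k, L k / j ≤ ∑ j ∈ Icc 1 k, L k :=
        Finset.sum_le_sum fun j _ => Nat.div_le_self _ _
    _ = k * L k := by simp

lemma a_pos {k : ℕ} (hk : 1 ≤ k) : 0 < a k := by
  unfold a
  have h1 : (1 : ℕ) ∈ Icc 1 k := mem_Icc.2 ⟨le_refl _, hk⟩
  refine lt_of_lt_of_le ?_ (Finset.single_le_sum (f := fun j => L k / j)
    (fun _ _ => Nat.zero_le _) h1)
  simpa using L_pos k

lemma log_L_le (k : ℕ) : Real.log (L k) ≤ (Real.log 4 + 4) * k := by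
  have h := Chebyshev.psi_eq_log_lcmUpto k
  have h2 : Nat.lcmUpto k = L k := rfl
  rw [h2] at h
  rw [← h]
  exact Chebyshev.psi_le_const_mul_self (Nat.cast_nonneg k)

lemma upper {p n : ℕ} (hn : 2 ≤ n) (hp : p.Prime) (h : p ∣ Nat.gcd (a n) (L n)) :
    (p : ℝ) ≤ 13 * n / Real.log n := by
  have hn' : (2 : ℝ) ≤ n := by exact_mod_cast hn
  have hl : 0 < Real.log n := Real.log_pos (by linarith)
  have hp0 : (0 : ℝ) < p := by exact_mod_cast hp.pos
  rw [le_div_iff₀ hl]
  have hlog4 : Real.log 4 ≤ 1.4 := by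
    have e : Real.log 4 = 2 * Real.log 2 := by
      rw [show (4 : ℝ) = 2 ^ 2 by norm_num, Real.log_pow]
      norm_num
    have := Real.log_two_lt_d9
    linarith
  rcases Nat.lt_or_ge n (p ^ 2) with hlt | hge
  · have hpn : p ≤ n := by
      -- `p` divides the least common multiple of the numbers up to `n`
      by_contra hc
      push Not at hc
      have := L_not_dvd (p := p) (z := 0) (n := n) hp (by simpa using hc)
      exact this (by simpa using h.trans (Nat.gcd_dvd_right _ _))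
    have hd := dvd_a_div hp hpn hlt (h.trans (Nat.gcd_dvd_left _ _))
    set k := n / p with hk
    have hk1 : 1 ≤ k := (Nat.one_le_div_iff hp.pos).2 hpn
    have hk1' : (1 : ℝ) ≤ k := by exact_mod_cast hk1
    have h1 : p ≤ k * L k := (Nat.le_of_dvd (a_pos hk1) hd).trans (a_le k)
    have h1' : (p : ℝ) ≤ k * L k := by exact_mod_cast h1
    have hL : (0 : ℝ) < L k := by exact_mod_cast L_pos k
    have h2 : Real.log p ≤ 6.4 * k := by
      calc Real.log p ≤ Real.log (k * L k) := Real.log_le_log hp0 h1'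
        _ = Real.log k + Real.log (L k) := Real.log_mul (by positivity) hL.ne'
        _ ≤ k + (Real.log 4 + 4) * k := by
            have := Real.log_le_sub_one_of_pos (show (0 : ℝ) < k by linarith)
            linarith [log_L_le k]
        _ ≤ 6.4 * k := by nlinarith
    have h3 : Real.log n ≤ 2 * Real.log p := by
      have : (n : ℝ) ≤ (p : ℝ) ^ 2 := by exact_mod_cast hlt.le
      have := Real.log_le_log (by linarith) this
      rwa [Real.log_pow] at this
    have h4 : (k : ℝ) * p ≤ n := by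
      have := Nat.div_mul_le_self n p
      exact_mod_cast this
    nlinarith
  · have hge' : (p : ℝ) ^ 2 ≤ n := by exact_mod_cast hge
    -- `p log n ≤ √n · 2 √n`
    have h5 : (p : ℝ) ≤ Real.sqrt n := Real.le_sqrt_of_sq_le hge'
    have hs : 0 < Real.sqrt n := Real.sqrt_pos.2 (by linarith)
    have h6 : Real.log n ≤ 2 * Real.sqrt n := by
      have e : Real.log n = 2 * Real.log (Real.sqrt n) := by
        rw [Real.log_sqrt (by linarith)]
        ring
      have := Real.log_le_sub_one_of_pos hs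
      linarith
    have h7 := Real.mul_self_sqrt (show (0 : ℝ) ≤ n by linarith)
    calc (p : ℝ) * Real.log n ≤ Real.sqrt n * (2 * Real.sqrt n) :=
          mul_le_mul h5 h6 hl.le hs.le
      _ = 2 * n := by linarith
      _ ≤ 13 * n := by linarith

end Pool.Agent.KS6_83.HN
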